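import Mathlib
import Pool.Agent.R627.DenseLM

/-!
# A densely locally minimal locally compact group containing a copy of `ℤ_p`
-/

set_option autoImplicit false
set_option linter.style.haveILetI false

namespace Pool.Agent.Results.MP_6af4f0_al.HeisZp

open Topology Filter Pool.Agent.R627.DenseLM

variable (p : ℕ) [Fact p.Prime]

/-- The group `ℚ_p / ℤ_p`, as a module over `ℤ_p`. -/
abbrev Pru : Type := ℚ_[p] ⧸ (LinearMap.range (Algebra.linearMap ℤ_[p] ℚ_[p]))

/-- `ℚ_p / ℤ_p` with the discrete topology. -/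
structure DPru : Type where
  /-- the underlying element -/
  val : Pru p

instance : TopologicalSpace (DPru p) := ⊥
instance : DiscreteTopology (DPru p) := ⟨rfl⟩

/-- The Heisenberg type group `ℚ_p/ℤ_p × ℤ_p × ℚ_p/ℤ_p`. -/
@[ext] structure HH : Type where
  /-- central coordinate -/
  z : Pru p
  /-- coordinate in `ℤ_p` -/
  x : ℤ_[p]
  /-- coordinate in `ℚ_p/ℤ_p` -/
  a : Pru p

variable {p}

noncomputable instance : Mul (HH p) := ⟨fun u v => ⟨u.z + v.z + u.x • v.a, u.x + v.x, u.a + v.a⟩⟩
noncomputable instance : One (HH p) := ⟨⟨0, 0, 0⟩⟩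
noncomputable instance : Inv (HH p) := ⟨fun u => ⟨-u.z + u.x • u.a, -u.x, -u.a⟩⟩

@[simp] theorem mul_z (u v : HH p) : (u * v).z = u.z + v.z + u.x • v.a := rfl
@[simp] theorem mul_x (u v : HH p) : (u * v).x = u.x + v.x := rfl
@[simp] theorem mul_a (u v : HH p) : (u * v).a = u.a + v.a := rfl
@[simp] theorem one_z : (1 : HH p).z = 0 := rfl
@[simp] theorem one_x : (1 : HH p).x = 0 := rfl
@[simp] theorem one_a : (1 : HH p).a = 0 := rfl
@[simp] theorem inv_z (u : HH p) : (u⁻¹).z = -u.z + u.x • u.a := rfl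
@[simp] theorem inv_x (u : HH p) : (u⁻¹).x = -u.x := rfl
@[simp] theorem inv_a (u : HH p) : (u⁻¹).a = -u.a := rfl

noncomputable instance : Group (HH p) :=
  Group.ofLeftAxioms
    (by
      intro u v w
      apply HH.ext
      · simp only [mul_z, mul_x, mul_a, add_smul, smul_add]
        abel
      · simp only [mul_x, add_assoc]
      · simp only [mul_a, add_assoc])
    (by
      intro u
      apply HH.ext <;> simp)
    (by
      intro u
      apply HH.ext
      · simp only [mul_z, inv_z, inv_x, neg_smul, one_z]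
        abel
      · simp
      · simp)

/-- The coordinates. -/
def toProd : HH p ≃ DPru p × ℤ_[p] × DPru p where
  toFun u := (⟨u.z⟩, u.x, ⟨u.a⟩)
  invFun t := ⟨t.1.val, t.2.1, t.2.2.val⟩
  left_inv _ := rfl
  right_inv _ := rfl

noncomputable instance : TopologicalSpace (HH p) := TopologicalSpace.induced toProd inferInstance

/-- The coordinate homeomorphism. -/
noncomputable def homeo : HH p ≃ₜ DPru p × ℤ_[p] × DPru p := toProd.toHomeomorphOfIsInducing ⟨rfl⟩

theorem continuous_z : Continuous (fun u : HH p => (⟨u.z⟩ : DPru p)) :=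
  continuous_fst.comp homeo.continuous

theorem continuous_x : Continuous (fun u : HH p => u.x) :=
  continuous_fst.comp (continuous_snd.comp homeo.continuous)

theorem continuous_a : Continuous (fun u : HH p => (⟨u.a⟩ : DPru p)) :=
  continuous_snd.comp (continuous_snd.comp homeo.continuous)

theorem continuous_into {T : Type*} [TopologicalSpace T] {g : T → HH p}
    (h1 : Continuous fun t => (⟨(g t).z⟩ : DPru p)) (h2 : Continuous fun t => (g t).x)
    (h3 : Continuous fun t => (⟨(g t).a⟩ : DPru p)) : Continuous g :=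
  homeo.symm.continuous.comp (h1.prodMk (h2.prodMk h3))

/-- Every element of `ℚ_p/ℤ_p` is killed by a power of `p`. -/
theorem exists_pow_smul (b : Pru p) : ∃ n : ℕ, ((p : ℤ_[p]) ^ n) • b = 0 := by
  obtain ⟨q, rfl⟩ := Submodule.Quotient.mk_surjective _ b
  obtain ⟨n, hn⟩ : ∃ n : ℕ, ‖q‖ ≤ (p : ℝ) ^ n := by
    have hp : (1 : ℝ) < p := by exact_mod_cast (Fact.out : p.Prime).one_lt
    obtain ⟨n, hn⟩ := pow_unbounded_of_one_lt ‖q‖ hp
    exact ⟨n, hn.le⟩
  refine ⟨n, ?_⟩
  rw [← Submodule.Quotient.mk_smul, Submodule.Quotient.mk_eq_zero]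
  have h1 : ‖((p : ℤ_[p]) ^ n) • q‖ ≤ 1 := by
    rw [Algebra.smul_def, norm_mul]
    have h2 : ‖(algebraMap ℤ_[p] ℚ_[p]) ((p : ℤ_[p]) ^ n)‖ = ((p : ℝ) ^ n)⁻¹ := by
      have : (algebraMap ℤ_[p] ℚ_[p]) ((p : ℤ_[p]) ^ n) = (((p : ℤ_[p]) ^ n : ℤ_[p]) : ℚ_[p]) := rfl
      rw [this]
      simp
    rw [h2]
    have hp0 : (0 : ℝ) < (p : ℝ) ^ n := by
      have : (0 : ℝ) < p := by exact_mod_cast (Fact.out : p.Prime).pos
      positivity
    rw [inv_mul_le_iff₀ hp0, mul_one]
    exact hn
  exact ⟨⟨_, h1⟩, rfl⟩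

/-- The action of `ℤ_p` on the discrete group `ℚ_p/ℤ_p` is continuous. -/
theorem continuous_smul_pru :
    Continuous fun t : ℤ_[p] × DPru p => (⟨t.1 • t.2.val⟩ : DPru p) := by
  rw [continuous_iff_continuousAt]
  rintro ⟨x, b⟩
  obtain ⟨n, hn⟩ := exists_pow_smul b.val
  -- the ball about `x`
  have hball : {y : ℤ_[p] | ∃ w : ℤ_[p], y - x = (p : ℤ_[p]) ^ n * w} ∈ 𝓝 x := by
    have hpos : (0 : ℝ) < (p : ℝ) ^ (-(n : ℤ)) := by
      have : (0 : ℝ) < p := by exact_mod_cast (Fact.out : p.Prime).pos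
      positivity
    refine Filter.mem_of_superset (Metric.closedBall_mem_nhds x hpos) ?_
    intro y hy
    rw [Metric.mem_closedBall, dist_eq_norm, PadicInt.norm_le_pow_iff_mem_span_pow,
      Ideal.mem_span_singleton] at hy
    obtain ⟨w, hw⟩ := hy
    exact ⟨w, hw⟩
  have hev : ∀ᶠ t in 𝓝 ((x, b) : ℤ_[p] × DPru p),
      (⟨x • b.val⟩ : DPru p) = ⟨t.1 • t.2.val⟩ := by
    have h1 : {y : ℤ_[p] | ∃ w : ℤ_[p], y - x = (p : ℤ_[p]) ^ n * w} ×ˢ ({b} : Set (DPru p)) ∈
        𝓝 ((x, b) : ℤ_[p] × DPru p) :=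
      prod_mem_nhds hball ((isOpen_discrete _).mem_nhds rfl)
    filter_upwards [h1]
    rintro ⟨y, c⟩ ⟨⟨w, hw⟩, hc⟩
    have hc' : c = b := hc
    subst hc'
    have h2 : y = x + w * (p : ℤ_[p]) ^ n := by
      have : y = x + (y - x) := by ring
      rw [this, hw]; ring
    show (⟨x • c.val⟩ : DPru p) = ⟨y • c.val⟩
    rw [h2, add_smul, mul_smul, hn, smul_zero, add_zero]
  exact tendsto_const_nhds.congr' hev

/-- Addition. -/
noncomputable def dadd (t : DPru p × DPru p) : DPru p := ⟨t.1.val + t.2.val⟩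

/-- Negation. -/
noncomputable def dneg (t : DPru p) : DPru p := ⟨-t.val⟩

instance : IsTopologicalGroup (HH p) where
  continuous_mul := by
    have ha : Continuous (dadd (p := p)) := continuous_of_discreteTopology
    apply continuous_into
    · have h1 : Continuous fun t : HH p × HH p => (⟨t.1.x • t.2.a⟩ : DPru p) :=
        continuous_smul_pru.comp ((continuous_x.comp continuous_fst).prodMk
          (continuous_a.comp continuous_snd))
      have h2 : Continuous fun t : HH p × HH p => dadd (⟨t.1.z⟩, ⟨t.2.z⟩) :=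
        ha.comp ((continuous_z.comp continuous_fst).prodMk (continuous_z.comp continuous_snd))
      exact ha.comp (h2.prodMk h1)
    · exact (continuous_x.comp continuous_fst).add (continuous_x.comp continuous_snd)
    · exact ha.comp ((continuous_a.comp continuous_fst).prodMk (continuous_a.comp continuous_snd))
  continuous_inv := by
    have ha : Continuous (dadd (p := p)) := continuous_of_discreteTopology
    have hn : Continuous (dneg (p := p)) := continuous_of_discreteTopology
    apply continuous_into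
    · have h1 : Continuous fun t : HH p => (⟨t.x • t.a⟩ : DPru p) :=
        continuous_smul_pru.comp (continuous_x.prodMk continuous_a)
      exact ha.comp ((hn.comp continuous_z).prodMk h1)
    · exact continuous_x.neg
    · exact hn.comp continuous_a

instance : T2Space (HH p) := homeo.symm.t2Space

instance : LocallyCompactSpace (HH p) := homeo.isClosedEmbedding.locallyCompactSpace

/-- The action of `ℤ_p` on `ℚ_p/ℤ_p` is faithful. -/
theorem faithful (x : ℤ_[p]) (h : ∀ b : Pru p, x • b = 0) : x = 0 := by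
  by_contra hx
  have h1 := h (Submodule.Quotient.mk ((x : ℚ_[p])⁻¹ * (p : ℚ_[p])⁻¹))
  rw [← Submodule.Quotient.mk_smul, Submodule.Quotient.mk_eq_zero] at h1
  obtain ⟨w, hw⟩ := h1
  have h2 : (w : ℚ_[p]) = (x : ℚ_[p]) * ((x : ℚ_[p])⁻¹ * (p : ℚ_[p])⁻¹) := hw
  have hx' : (x : ℚ_[p]) ≠ 0 := by
    intro h3
    exact hx (Subtype.coe_injective h3)
  rw [← mul_assoc, mul_inv_cancel₀ hx', one_mul] at h2
  have h3 : ‖(w : ℚ_[p])‖ ≤ 1 := w.2
  rw [h2, norm_inv, Padic.norm_p, inv_inv] at h3
  have hp : (1 : ℝ) < p := by exact_mod_cast (Fact.out : p.Prime).one_lt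
  linarith

variable (p)

/-- The group of the example. -/
abbrev GG : Type := HH p × Multiplicative ℝ

variable {p}

/-- The neighbourhood of the identity without normal subgroups. -/
def VV (p : ℕ) [Fact p.Prime] : Set (GG p) :=
  {g | g.1.z = 0 ∧ g.1.a = 0 ∧ |g.2.toAdd| < 1}

theorem VV_mem : VV p ∈ 𝓝 (1 : GG p) := by
  have h1 : IsOpen (VV p) := by
    have e : VV p = (fun g : GG p => (⟨g.1.z⟩ : DPru p)) ⁻¹' {⟨0⟩} ∩
        ((fun g : GG p => (⟨g.1.a⟩ : DPru p)) ⁻¹' {⟨0⟩} ∩
          (fun g : GG p => |g.2.toAdd|) ⁻¹' Set.Iio 1) := by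
      ext g
      simp [VV]
    rw [e]
    refine ((isOpen_discrete _).preimage (continuous_z.comp continuous_fst)).inter
      (((isOpen_discrete _).preimage (continuous_a.comp continuous_fst)).inter
        (isOpen_Iio.preimage ?_))
    exact (continuous_abs.comp (continuous_toAdd.comp continuous_snd))
  apply h1.mem_nhds
  simp [VV]

theorem VV_noNormal (N : Subgroup (GG p)) (hN : N.Normal) (_ : IsClosed (N : Set (GG p)))
    (hNV : (N : Set (GG p)) ⊆ VV p) : N = ⊥ := by
  rw [eq_bot_iff]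
  intro g hg
  obtain ⟨h1, h2, h3⟩ := hNV hg
  have hx : g.1.x = 0 := by
    apply faithful
    intro b
    have h4 := hN.conj_mem g hg (⟨0, 0, -b⟩, 1)
    have h5 := (hNV h4).1
    simpa [h1, h2] using h5
  have hr : g.2.toAdd = 0 := by
    by_contra hne
    obtain ⟨n, hn⟩ := exists_nat_gt (|g.2.toAdd|⁻¹)
    have h4 := (hNV (N.pow_mem hg n)).2.2
    rw [Prod.pow_snd, toAdd_pow, nsmul_eq_mul, abs_mul, Nat.abs_cast] at h4
    have h5 : 0 < |g.2.toAdd| := abs_pos.mpr hne
    have h6 : 1 < n * |g.2.toAdd| := by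
      rw [← inv_mul_cancel₀ h5.ne']
      exact mul_lt_mul_of_pos_right hn h5
    linarith
  rw [Subgroup.mem_bot]
  apply Prod.ext
  · exact HH.ext h1 hx h2
  · exact Multiplicative.toAdd.injective hr

/-- The copy of `ℤ_p`. -/
noncomputable def ι : Multiplicative ℤ_[p] →* GG p where
  toFun x := (⟨0, x.toAdd, 0⟩, 1)
  map_one' := rfl
  map_mul' x y := by
    apply Prod.ext
    · apply HH.ext <;> simp
    · simp

theorem mem_range_ι (g : GG p) : g ∈ (ι (p := p)).range ↔ g.1.z = 0 ∧ g.1.a = 0 ∧ g.2 = 1 := by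
  constructor
  · rintro ⟨x, rfl⟩
    exact ⟨rfl, rfl, rfl⟩
  · rintro ⟨h1, h2, h3⟩
    refine ⟨Multiplicative.ofAdd g.1.x, ?_⟩
    apply Prod.ext
    · exact HH.ext h1.symm rfl h2.symm
    · exact h3.symm

theorem isClosed_range_ι : IsClosed ((ι (p := p)).range : Set (GG p)) := by
  have e : ((ι (p := p)).range : Set (GG p)) = (fun g : GG p => (⟨g.1.z⟩ : DPru p)) ⁻¹' {⟨0⟩} ∩
        ((fun g : GG p => (⟨g.1.a⟩ : DPru p)) ⁻¹' {⟨0⟩} ∩
          (fun g : GG p => g.2) ⁻¹' {1}) := by
    ext g
    rw [SetLike.mem_coe, mem_range_ι]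
    simp
  rw [e]
  exact ((isClosed_discrete _).preimage (continuous_z.comp continuous_fst)).inter
      (((isClosed_discrete _).preimage (continuous_a.comp continuous_fst)).inter
        (isClosed_singleton.preimage continuous_snd))

/-- The isomorphism of `ℤ_p` onto the closed subgroup. -/
noncomputable def ιEquiv : Multiplicative ℤ_[p] ≃ₜ* (ι (p := p)).range where
  toFun x := ⟨ι x, ⟨x, rfl⟩⟩
  invFun g := Multiplicative.ofAdd g.1.1.x
  left_inv _ := rfl
  right_inv g := by
    apply Subtype.ext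
    obtain ⟨h1, h2, h3⟩ := (mem_range_ι g.1).mp g.2
    apply Prod.ext
    · exact HH.ext h1.symm rfl h2.symm
    · exact h3.symm
  map_mul' x y := Subtype.ext (map_mul ι x y)
  continuous_toFun := by
    apply Continuous.subtype_mk
    refine Continuous.prodMk (continuous_into ?_ ?_ ?_) continuous_const
    · show Continuous fun _ : Multiplicative ℤ_[p] => (⟨0⟩ : DPru p)
      exact continuous_const
    · exact continuous_toAdd
    · show Continuous fun _ : Multiplicative ℤ_[p] => (⟨0⟩ : DPru p)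
      exact continuous_const
  continuous_invFun :=
    continuous_ofAdd.comp (continuous_x.comp (continuous_fst.comp continuous_subtype_val))

theorem not_totallyDisconnected : ¬ TotallyDisconnectedSpace (GG p) := by
  intro h
  have hc : Continuous fun r : ℝ => ((1, Multiplicative.ofAdd r) : GG p) :=
    continuous_const.prodMk continuous_ofAdd
  have h1 : IsPreconnected (Set.range fun r : ℝ => ((1, Multiplicative.ofAdd r) : GG p)) :=
    isPreconnected_range hc
  have h2 := h1.subsingleton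
  have h3 := h2 ⟨0, rfl⟩ ⟨1, rfl⟩
  have h4 : (0 : ℝ) = 1 := congrArg (fun g : GG p => g.2.toAdd) h3
  exact zero_ne_one h4

/-- For every prime `p` there is a locally compact group `G`, not totally disconnected, all of whose
dense subgroups are locally minimal, with a closed subgroup topologically isomorphic to the group
`ℤ_p` of `p`-adic integers. -/
theorem result (p : ℕ) [Fact p.Prime] : ∃ (G : Type) (_ : Group G) (_ : TopologicalSpace G)
    (_ : IsTopologicalGroup G) (_ : T2Space G) (_ : LocallyCompactSpace G),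
    ¬ TotallyDisconnectedSpace G ∧
    (∀ D : Subgroup G, Dense (D : Set G) → LocallyMinimal D) ∧
    ∃ A : Subgroup G, IsClosed (A : Set G) ∧ Nonempty (Multiplicative ℤ_[p] ≃ₜ* A) :=
  ⟨GG p, inferInstance, inferInstance, inferInstance, inferInstance, inferInstance,
    not_totallyDisconnected, dense_locallyMinimal VV_mem VV_noNormal,
    ι.range, isClosed_range_ι, ⟨ιEquiv⟩⟩

end Pool.Agent.Results.MP_6af4f0_al.HeisZp
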